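import Pool.Agent.H38.Ang.Fin

/-!
Deciding whether a graph has a straight-line drawing of angular resolution at least a third of pi
is complete for the existential theory of the reals.
-/

namespace Pool.Agent.Results.MP_aca74d_lc.Complete

open Pool.Agent.H38.NP Pool.Agent.H38.ER Pool.Agent.H38.Ang

theorem result :
    ERComplete (lang fun p : ℕ × List (ℕ × ℕ) => IsGraph p ∧ HasAR (Real.pi / 3) p) := ar_complete

end Pool.Agent.Results.MP_aca74d_lc.Complete
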